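import Pool.Agent.Helper57.PW.Defs

set_option autoImplicit false

open MvPolynomial

namespace PoolPW

theorem C345.reach_of_adj {V : Type*} {G G' : SimpleGraph V}
    (h : ∀ x y, G'.Adj x y → G.Reachable x y) {u v : V} (h' : G'.Reachable u v) :
    G.Reachable u v := by
  obtain ⟨p⟩ := h'
  induction p with
  | nil => exact SimpleGraph.Reachable.refl _
  | cons h1 p ih => exact (h _ _ h1).trans ih

open Classical in
/-- Module C3 : property (P_J). -/
theorem jfam_sep {V : Type*} [Fintype V] (M : SimpleGraph V) (T : V → ZMod 2)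
    (Z : Finset (V × V)) (k : V × V) (h1 : ¬ Jfam M T Z) (h2 : Jfam M T (insert k Z)) :
    ∃ w : V → ℝ, (∀ j ∈ Z, w j.1 = w j.2) ∧ w k.1 ≠ w k.2 := by
  set G := pairGraph Z ⊔ inGraph M T with hG
  have hkn : ¬ G.Reachable k.1 k.2 := by
    intro hk
    apply h1
    intro u v huv
    refine C345.reach_of_adj ?_ (h2 u v huv)
    intro x y hxy
    rcases hxy with hxy | hxy
    · obtain ⟨hne, hmem⟩ := hxy
      rw [Finset.mem_insert, Finset.mem_insert] at hmem
      rcases hmem with (h | h) | (h | h)
      · rw [← h] at hk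
        exact hk
      · exact SimpleGraph.Adj.reachable (Or.inl ⟨hne, Or.inl h⟩)
      · rw [← h] at hk
        exact hk.symm
      · exact SimpleGraph.Adj.reachable (Or.inl ⟨hne, Or.inr h⟩)
    · exact SimpleGraph.Adj.reachable (Or.inr hxy)
  refine ⟨fun x => if G.Reachable k.1 x then 1 else 0, ?_, ?_⟩
  · intro j hj
    by_cases hjj : j.1 = j.2
    · rw [hjj]
    · have hadj : G.Adj j.1 j.2 := Or.inl ⟨hjj, Or.inl hj⟩
      have : G.Reachable k.1 j.1 ↔ G.Reachable k.1 j.2 :=
        ⟨fun h => h.trans hadj.reachable, fun h => h.trans hadj.reachable.symm⟩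
      simp only [this]
  · simp only [SimpleGraph.Reachable.refl, if_true]
    rw [if_neg hkn]
    exact one_ne_zero

/-- realisable parity vectors -/
def C345.Real' {V : Type*} [Fintype V] (N : SimpleGraph V) (τ : V → ZMod 2) : Prop :=
  ∃ f : V → V → ZMod 2, (∀ u v, f u v = f v u) ∧ (∀ u v, f u v ≠ 0 → N.Adj u v) ∧
    ∀ v, ∑ u, f v u = τ v

theorem C345.Real'.add {V : Type*} [Fintype V] {N : SimpleGraph V} {τ τ' : V → ZMod 2}
    (h : C345.Real' N τ) (h' : C345.Real' N τ') : C345.Real' N (τ + τ') := by
  obtain ⟨f, hf1, hf2, hf3⟩ := h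
  obtain ⟨g, hg1, hg2, hg3⟩ := h'
  refine ⟨fun u v => f u v + g u v, ?_, ?_, ?_⟩
  · intro u v
    simp only [hf1 u v, hg1 u v]
  · intro u v hne
    by_cases h0 : f u v = 0
    · apply hg2
      intro h1
      apply hne
      simp only [h0, h1, add_zero]
    · exact hf2 u v h0
  · intro v
    rw [Finset.sum_add_distrib, hf3, hg3]
    rfl

theorem C345.Real'.zero {V : Type*} [Fintype V] (N : SimpleGraph V) : C345.Real' N 0 :=
  ⟨fun _ _ => 0, fun _ _ => rfl, fun _ _ h => absurd rfl h, fun _ => by simp⟩

open Classical in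
theorem C345.Real'.edge {V : Type*} [Fintype V] {N : SimpleGraph V} {a b : V} (h : N.Adj a b) :
    C345.Real' N (Pi.single a 1 + Pi.single b 1) := by
  refine ⟨fun u v => if (u = a ∧ v = b) ∨ (u = b ∧ v = a) then 1 else 0, ?_, ?_, ?_⟩
  · intro u v
    have : ((u = a ∧ v = b) ∨ (u = b ∧ v = a)) ↔ ((v = a ∧ u = b) ∨ (v = b ∧ u = a)) := by
      tauto
    simp only [this]
  · intro u v hne
    simp only [ne_eq, ite_eq_right_iff, one_ne_zero, imp_false, not_not] at hne
    rcases hne with ⟨rfl, rfl⟩ | ⟨rfl, rfl⟩
    · exact h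
    · exact h.symm
  · intro v
    have hab : a ≠ b := h.ne
    rw [Pi.add_apply]
    by_cases hva : v = a
    · subst hva
      rw [Finset.sum_eq_single b]
      · simp [hab]
      · intro u _ hub
        simp [hub, hab]
      · intro hb
        exact absurd (Finset.mem_univ _) hb
    · by_cases hvb : v = b
      · subst hvb
        rw [Finset.sum_eq_single a]
        · simp [hva]
        · intro u _ hua
          simp [hua, hva]
        · intro hb
          exact absurd (Finset.mem_univ _) hb
      · rw [Finset.sum_eq_zero]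
        · simp [hva, hvb]
        · intro u _
          simp [hva, hvb]

open Classical in
theorem C345.Real'.reach {V : Type*} [Fintype V] {N : SimpleGraph V} {a b : V}
    (h : N.Reachable a b) : C345.Real' N (Pi.single a 1 + Pi.single b 1) := by
  obtain ⟨p⟩ := h
  induction p with
  | nil =>
    have : ∀ c : V, (Pi.single c 1 + Pi.single c 1 : V → ZMod 2) = 0 := by
      intro c
      rw [← two_nsmul, ← Pi.single_smul']
      have : (2 : ℕ) • (1 : ZMod 2) = 0 := by decide
      rw [this, Pi.single_zero]
    rw [this]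
    exact C345.Real'.zero N
  | cons h1 p ih =>
    rename_i x y z
    have := (C345.Real'.edge h1).add ih
    have e : (Pi.single x 1 + Pi.single y 1 + (Pi.single y 1 + Pi.single z 1) : V → ZMod 2) =
        Pi.single x 1 + Pi.single z 1 := by
      have h2 : (Pi.single y 1 + Pi.single y 1 : V → ZMod 2) = 0 := by
        rw [← two_nsmul, ← Pi.single_smul']
        have : (2 : ℕ) • (1 : ZMod 2) = 0 := by decide
        rw [this, Pi.single_zero]
      calc _ = Pi.single x 1 + (Pi.single y 1 + Pi.single y 1) + Pi.single z 1 := by abel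
        _ = _ := by rw [h2, add_zero]
    rw [e] at this
    exact this

open Classical in
theorem C345.Real'.of_even {V : Type*} [Fintype V] (N : SimpleGraph V) (n : ℕ) :
    ∀ τ : V → ZMod 2, (Finset.univ.filter (fun v => τ v ≠ 0)).card ≤ n →
      (∀ u, ∑ v ∈ Finset.univ.filter (fun v => N.Reachable u v), τ v = 0) →
      C345.Real' N τ := by
  induction n with
  | zero =>
    intro τ hτ _
    have : τ = 0 := by
      funext v
      by_contra hv
      have h1 : (Finset.univ.filter (fun v => τ v ≠ 0)) = ∅ := by
        rw [← Finset.card_eq_zero]; omega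
      have h2 : v ∈ (Finset.univ.filter (fun v => τ v ≠ 0)) := by simpa using hv
      rw [h1] at h2
      simp at h2
    rw [this]
    exact C345.Real'.zero N
  | succ n ih =>
    intro τ hn hτ
    by_cases h0 : τ = 0
    · rw [h0]; exact C345.Real'.zero N
    obtain ⟨a, ha⟩ := Function.ne_iff.1 h0
    have h2 : ∀ c : ZMod 2, c ≠ 0 → c = 1 := by decide
    have ha1 : τ a = 1 := h2 _ ha
    -- another odd vertex in the component of `a`
    have hb : ∃ b, b ≠ a ∧ N.Reachable a b ∧ τ b ≠ 0 := by
      by_contra hcon
      push Not at hcon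
      have h3 := hτ a
      rw [Finset.sum_eq_single a] at h3
      · exact ha h3
      · intro b hb hba
        exact hcon b hba (Finset.mem_filter.1 hb).2
      · intro h4
        exact absurd (Finset.mem_filter.2 ⟨Finset.mem_univ _, SimpleGraph.Reachable.refl _⟩) h4
    obtain ⟨b, hba, hab, hb⟩ := hb
    have hb1 : τ b = 1 := h2 _ hb
    set σ : V → ZMod 2 := Pi.single a 1 + Pi.single b 1 with hσ
    have hσr : C345.Real' N σ := C345.Real'.reach hab
    have hcard : (Finset.univ.filter (fun v => (τ + σ) v ≠ 0)).card ≤ n := by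
      have hsub : (Finset.univ.filter (fun v => (τ + σ) v ≠ 0)) ⊂
          (Finset.univ.filter (fun v => τ v ≠ 0)) := by
        rw [Finset.ssubset_iff_of_subset]
        · refine ⟨a, by simpa using ha, ?_⟩
          simp only [Finset.mem_filter, Finset.mem_univ, true_and, not_not, Pi.add_apply]
          rw [ha1, hσ]
          simp only [Pi.add_apply, Pi.single_eq_same, Pi.single_eq_of_ne hba.symm, add_zero]
          decide
        · intro v hv
          simp only [Finset.mem_filter, Finset.mem_univ, true_and] at hv ⊢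
          intro hv0
          apply hv
          have hva : v ≠ a := fun e => ha (e ▸ hv0)
          have hvb : v ≠ b := fun e => hb (e ▸ hv0)
          rw [Pi.add_apply, hv0, hσ]
          simp [hva, hvb]
      have := Finset.card_lt_card hsub
      omega
    have hev : ∀ u, ∑ v ∈ Finset.univ.filter (fun v => N.Reachable u v), (τ + σ) v = 0 := by
      intro u
      simp only [Pi.add_apply]
      rw [Finset.sum_add_distrib, hτ u, zero_add]
      rw [hσ]
      simp only [Pi.add_apply]
      rw [Finset.sum_add_distrib]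
      rw [Finset.sum_pi_single', Finset.sum_pi_single']
      simp only [Finset.mem_filter, Finset.mem_univ, true_and]
      have hiff : N.Reachable u a ↔ N.Reachable u b :=
        ⟨fun h => h.trans hab, fun h => h.trans hab.symm⟩
      simp only [hiff]
      split_ifs
      · decide
      · rfl
    have h5 := (ih (τ + σ) hcard hev).add hσr
    have h6 : τ + σ + σ = τ := by
      funext v
      simp only [Pi.add_apply]
      have : ∀ x y : ZMod 2, x + y + y = x := by decide
      exact this _ _
    rw [h6] at h5
    exact h5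

open Classical in
/-- Module C4 : T-joins. -/
theorem exists_join {V : Type*} [Fintype V] (N : SimpleGraph V) (τ : V → ZMod 2)
    (hτ : ∀ u, ∑ v ∈ Finset.univ.filter (fun v => N.Reachable u v), τ v = 0) :
    ∃ F : SimpleGraph V, F ≤ N ∧
      ∀ v, ((Finset.univ.filter (fun u => F.Adj v u)).card : ZMod 2) = τ v := by
  obtain ⟨f, hf1, hf2, hf3⟩ := C345.Real'.of_even N _ τ le_rfl hτ
  refine ⟨⟨fun u v => f u v ≠ 0, ⟨fun u v h => by rw [hf1]; exact h⟩,
    ⟨fun u h => (hf2 u u h).ne rfl⟩⟩, fun u v h => hf2 u v h, ?_⟩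
  intro v
  rw [← hf3 v, Finset.card_filter]
  push_cast
  refine Finset.sum_congr rfl fun u _ => ?_
  have h2 : ∀ c : ZMod 2, (if c ≠ 0 then (1 : ZMod 2) else 0) = c := by decide
  exact h2 _

end PoolPW
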