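import Pool.Agent.Helper57.PW.Defs

set_option autoImplicit false

namespace PoolPW

/-- a rational functional killing `u` with value one on `v` when `v` is not a rational multiple -/
theorem C5.exists_functional (u v : ℝ) (h : v ∉ Submodule.span ℚ {u}) :
    ∃ L : ℝ →ₗ[ℚ] ℚ, L u = 0 ∧ L v = 1 := by
  obtain ⟨f, hf1, hf2⟩ := Submodule.exists_le_ker_of_notMem h
  refine ⟨(f v)⁻¹ • f, ?_, ?_⟩
  · have : u ∈ LinearMap.ker f := hf2 (Submodule.mem_span_singleton_self u)
    rw [LinearMap.mem_ker] at this
    simp [this]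
  · simp [hf1]

/-- the parity function of a functional -/
theorem C5.parity (L : ℝ →ₗ[ℚ] ℚ) (p q : ℝ) (m n : ℤ) (hp : L p = m) (hq : L q = n)
    (hm : (m : ZMod 2) = 0) (hn : (n : ZMod 2) = 1) :
    ∃ Φ : ℝ → ZMod 2, (∀ t, Φ (t + p) = Φ t) ∧ (∀ t, Φ (t + q) = Φ t + 1) := by
  refine ⟨fun t => ((⌊L t⌋ : ℤ) : ZMod 2), ?_, ?_⟩
  · intro t
    simp only [map_add, hp, Int.floor_add_intCast]
    push_cast
    rw [hm, add_zero]
  · intro t
    simp only [map_add, hq, Int.floor_add_intCast]
    push_cast
    rw [hn]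

/-- Module C5 : the parity function.  Among three distinct reals two can be chosen (as `a, c`)
whose difference is even and the third one (`b`) has odd difference. -/
theorem exists_parity (x y z : ℝ) (hxy : x ≠ y) (hyz : y ≠ z) (hxz : x ≠ z) :
    ∃ a b c : ℝ, a ≠ b ∧ b ≠ c ∧ a ≠ c ∧ ({a, b, c} : Set ℝ) = {x, y, z} ∧
      ∃ Φ : ℝ → ZMod 2, (∀ t, Φ (t + (c - a)) = Φ t) ∧ (∀ t, Φ (t + (b - a)) = Φ t + 1) := by
  have hodd : ∀ m : ℤ, (m : ZMod 2) = 0 ∨ (m : ZMod 2) = 1 := by
    intro m
    have : ∀ c : ZMod 2, c = 0 ∨ c = 1 := by decide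
    exact this _
  by_cases hirr : (y - x) ∈ Submodule.span ℚ {z - x}
  · rw [Submodule.mem_span_singleton] at hirr
    obtain ⟨r, hr⟩ := hirr
    have hzx : z - x ≠ 0 := sub_ne_zero.mpr hxz.symm
    set δ : ℝ := (z - x) / r.den with hδ
    have hden : (r.den : ℝ) ≠ 0 := by exact_mod_cast r.den_ne_zero
    have hδ0 : δ ≠ 0 := div_ne_zero hzx hden
    obtain ⟨L, _, hL⟩ := C5.exists_functional 0 δ (by
      rw [Submodule.span_zero_singleton, Submodule.mem_bot]
      exact hδ0)
    have hz : z - x = (r.den : ℚ) • δ := by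
      rw [hδ, Rat.smul_def]
      push_cast
      field_simp
    have hy : y - x = (r.num : ℚ) • δ := by
      rw [← hr, hδ, Rat.smul_def, Rat.smul_def]
      push_cast
      have : (r : ℝ) = r.num / r.den := by
        exact_mod_cast (Rat.num_div_den r).symm
      rw [this]
      field_simp
    have hLz : L (z - x) = ((r.den : ℤ) : ℚ) := by
      rw [hz, map_smul, hL]; simp
    have hLy : L (y - x) = ((r.num : ℤ) : ℚ) := by
      rw [hy, map_smul, hL]; simp
    -- not both even
    have hcop : ¬ (((r.num : ℤ) : ZMod 2) = 0 ∧ ((r.den : ℤ) : ZMod 2) = 0) := by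
      rintro ⟨h1, h2⟩
      rw [ZMod.intCast_zmod_eq_zero_iff_dvd] at h1
      rw [ZMod.intCast_zmod_eq_zero_iff_dvd] at h2
      have h3 := r.reduced
      have h4 : 2 ∣ r.num.natAbs := by
        have := Int.natAbs_dvd_natAbs.mpr h1
        simpa using this
      have h5 : 2 ∣ r.den := by exact_mod_cast h2
      have h6 := Nat.dvd_gcd h4 h5
      rw [h3] at h6
      norm_num at h6
    rcases hodd r.den with hd | hd
    · -- denominator even
      have hn : ((r.num : ℤ) : ZMod 2) = 1 := (hodd r.num).resolve_left (fun h => hcop ⟨h, hd⟩)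
      exact ⟨x, y, z, hxy, hyz, hxz, rfl, C5.parity L _ _ _ _ hLz hLy hd hn⟩
    · rcases hodd r.num with hn | hn
      · -- numerator even
        refine ⟨x, z, y, hxz, hyz.symm, hxy, ?_, C5.parity L _ _ _ _ hLy hLz hn hd⟩
        ext t
        simp only [Set.mem_insert_iff, Set.mem_singleton_iff]
        tauto
      · -- both odd
        refine ⟨y, x, z, hxy.symm, hxz, hyz, ?_, ?_⟩
        · ext t
          simp only [Set.mem_insert_iff, Set.mem_singleton_iff]
          tauto
        · refine C5.parity L _ _ ((r.den : ℤ) - r.num) (- r.num) ?_ ?_ ?_ ?_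
          · have : z - y = (z - x) - (y - x) := by ring
            rw [this, map_sub, hLz, hLy]
            push_cast
            ring
          · have : x - y = - (y - x) := by ring
            rw [this, map_neg, hLy]
            push_cast
            ring
          · push_cast
            rw [hn]
            have : ((r.den : ℕ) : ZMod 2) = 1 := by exact_mod_cast hd
            rw [this]
            decide
          · push_cast
            rw [hn]
            decide
  · obtain ⟨L, hL1, hL2⟩ := C5.exists_functional (z - x) (y - x) hirr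
    exact ⟨x, y, z, hxy, hyz, hxz, rfl, C5.parity L _ _ 0 1 (by simpa using hL1)
      (by simpa using hL2) (by simp) (by simp)⟩

end PoolPW
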